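import Pool.Agent.H.MP_a5b52c_an.A

set_option autoImplicit false

namespace Pool.Agent.Results.MP_1f58a3_an.NoConst

open Set Metric Filter RCLike

variable {𝕜 X : Type} [RCLike 𝕜] [NormedAddCommGroup X] [NormedSpace 𝕜 X]

def ienv (A : Set (StrongDual 𝕜 X)) : Set (StrongDual 𝕜 X) :=
  ⋂ C ∈ {C : ℕ → Set (StrongDual 𝕜 X) | ⋃ n, C n = A}, closure (convexHull ℝ (⋃ n,
    StrongDual.toWeakDual ⁻¹' closure (StrongDual.toWeakDual '' convexHull ℝ (C n))))

noncomputable def gap (A : Set (StrongDual 𝕜 X)) (η : StrongDual 𝕜 X)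
    (x : ℕ → closedBall (0 : X) 1) : ℝ :=
  (⨅ k, re (η (x k))) - ⨆ ξ : A, limsup (fun k => re (ξ.1 (x k))) atTop

open Pool.Agent.H.MP_a5b52c_an in
theorem result (𝕜 : Type) [RCLike 𝕜] (c : ℝ) (hc : 1 ≤ c) :
    ∃ (X : Type) (_ : NormedAddCommGroup X) (_ : NormedSpace 𝕜 X) (_ : CompleteSpace X)
      (A : Set (StrongDual 𝕜 X)) (η : StrongDual 𝕜 X),
      A.Nonempty ∧ Bornology.IsBounded A ∧ (ienv A).Nonempty ∧ BddAbove (range (gap A η)) ∧
        c * ⨆ x, gap A η x < infDist η (ienv A) := by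
  obtain ⟨j, hj⟩ := exists_nat_gt c
  set A := xi 𝕜 '' {γ | γ 0 = j}
  have a1 : ∀ ξ ∈ A, ‖ξ‖ ≤ j + 1 + (j + 1 : ℝ)⁻¹ := forall_mem_image.2 fun γ hγ => by
    have : γ 0 = j := hγ
    rw [xi, this]
    exact norm_add_le_of_le (nsm (by positivity) (e1_le γ)) (nsm (by positivity) (e2_le γ))
  have a2 : ∀ ξ ∈ A, ∀ x : closedBall (0 : X 𝕜) 1, |re (ξ x)| ≤ j + 1 + (j + 1 : ℝ)⁻¹ :=
    fun ξ hξ x => (abs_re_le_norm _).trans ((ξ.le_opNorm _).trans ((mul_le_of_le_one_right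
      (norm_nonneg _) (mem_closedBall_zero_iff.1 x.2)).trans (a1 ξ hξ)))
  have a3 : ∀ x, gap A 0 x ≤ (j + 1 : ℝ)⁻¹ := fun x => by
    obtain ⟨γ, g1, g2⟩ := not_subset.1 fun h => slice j
      ((Sml.union fun k => (x k).1.1.2).mono h)
    have m : xi 𝕜 γ ∈ A := mem_image_of_mem _ g1
    have : -(j + 1 : ℝ)⁻¹ ≤ ⨆ ξ : A, limsup (fun k => re (ξ.1 (x k))) atTop :=
      le_ciSup_of_le ⟨_, forall_mem_range.2 fun ξ => limsup_le_of_le
        (isCoboundedUnder_le_of_le _ fun k => (abs_le.1 (a2 _ ξ.2 (x k))).1)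
        (.of_forall fun k => (abs_le.1 (a2 _ ξ.2 (x k))).2)⟩ ⟨_, m⟩
        (le_limsup_of_frequently_le (.of_forall fun k => by
          have e : (x k).1.1.1 γ = 0 := by_contra fun h => g2 (mem_iUnion.2 ⟨k, h⟩)
          have b : -1 ≤ re ((x k).1.2 γ) := (abs_le.1 ((abs_re_le_norm _).trans
            ((lp.norm_apply_le_norm ENNReal.top_ne_zero _ γ).trans ((norm_snd_le (x k).1).trans
              (mem_closedBall_zero_iff.1 (x k).2))))).1
          have : γ 0 = j := g1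
          rw [xi_re, e, this, map_zero, mul_zero, zero_add, ← mul_neg_one]
          exact mul_le_mul_of_nonneg_left b (by positivity))
          (isBoundedUnder_of ⟨_, fun k => (abs_le.1 (a2 _ m (x k))).2⟩))
    simp only [gap, _root_.zero_apply, map_zero, ciInf_const]
    linarith
  have a4 : (ienv A).Nonempty := ⟨xi 𝕜 fun _ => j, mem_iInter₂.2 fun C hC => by
    obtain ⟨k, hk⟩ := mem_iUnion.1 (Eq.ge hC (mem_image_of_mem _ (show (fun _ => j) ∈ _ from rfl)))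
    exact subset_closure (subset_convexHull _ _ (mem_iUnion.2 ⟨k, mem_preimage.2 (subset_closure
      (mem_image_of_mem _ (subset_convexHull _ _ hk)))⟩))⟩
  refine ⟨X 𝕜, inferInstance, inferInstance, inferInstance, A, 0, ⟨_, mem_image_of_mem _
    (show (fun _ => j) ∈ _ from rfl)⟩, isBounded_iff_forall_norm_le.2 ⟨_, a1⟩, a4,
    ⟨_, forall_mem_range.2 a3⟩, lt_of_lt_of_le (b := 1) ?_ ((le_infDist a4).2 fun ζ hζ => ?_)⟩
  · refine (mul_le_mul_of_nonneg_left (Real.iSup_le a3 (by positivity)) (by linarith)).trans_lt ?_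
    rw [mul_inv_lt_iff₀ (by positivity)]
    linarith
  · rw [dist_zero_left]
    exact far j (fun γ hγ => Eq.le hγ) hζ

end Pool.Agent.Results.MP_1f58a3_an.NoConst
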